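import Mathlib
import Pool.Agent.Y90.S.Jobs

/-!
# Imaginary quadratic multiplication: from abelian subvarieties to period matrices
-/

set_option linter.unusedSectionVars false

namespace Pool.Agent.Y941.S4

open Matrix Module Pool.Agent.W437.HC Pool.Agent.W437.HD Pool.Agent.W548.Odd Pool.Agent.TH504.CB
open Pool.Agent.Y90 Pool.Agent.Y90.S
open Pool.Agent.W437.HP (cK cK_mul cK_one)

noncomputable section

section gen

variable {B B' : Type} [Fintype B] [DecidableEq B] [Fintype B'] [DecidableEq B']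
  {T T' : Type} [AddCommGroup T] [Module ℂ T] [AddCommGroup T'] [Module ℂ T']
  {per : (B → ℚ) →+ T} {per' : (B' → ℚ) →+ T'} {J : Matrix B B ℝ} {J' : Matrix B' B' ℝ}

/-- Homomorphisms are compatible with the complex structures. -/
theorem comm_of_hom (h : Cht per J) (h' : Cht per' J') {R : Matrix B' B ℚ} {Ψ : T →ₗ[ℂ] T'}
    (hΨ : ∀ v, Ψ (per v) = per' (R *ᵥ v)) : cK ℂ R * DJ J = DJ J' * cK ℂ R := by
  obtain ⟨P, I, hP, hPJ, hIP, hPI⟩ := h.ex
  obtain ⟨P', I', hP', hPJ', hIP', -⟩ := h'.ex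
  have hr : ∀ (r : ℝ) t, Ψ (r • t) = r • Ψ t := fun r t => Ψ.map_smul_of_tower r t
  have hbas : ∀ x : B → ℝ, x = ∑ i, x i • (Pi.single i 1 : B → ℝ) := by
    intro x
    funext j
    simp [Finset.sum_apply, Pi.single_apply]
  have hP1 : ∀ i, P (Pi.single i 1) = per (Pi.single i 1) := by
    intro i
    rw [← single_castR, hP]
  have hP2 : ∀ i, P' (cK ℝ R *ᵥ (Pi.single i 1 : B → ℝ)) = per' (R *ᵥ Pi.single i 1) := by
    intro i
    rw [← hP']
    congr 1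
    funext j
    simp [cK]
  have hΨP : ∀ x : B → ℝ, Ψ (P x) = P' (cK ℝ R *ᵥ x) := by
    intro x
    rw [hbas x, mulVec_sum, map_sum, map_sum, map_sum]
    refine Finset.sum_congr rfl fun i _ => ?_
    rw [mulVec_smul, map_smul, hr, map_smul, hP1, hΨ, hP2]
  refine DJ_of_real ?_
  apply Matrix.toLin'.injective
  refine LinearMap.ext fun x => ?_
  rw [Matrix.toLin'_apply, Matrix.toLin'_apply, ← mulVec_mulVec, ← mulVec_mulVec,
    ← hIP' (cK ℝ R *ᵥ (J *ᵥ x)), ← hΨP, hPJ, map_smul, hΨP, ← hPJ', hIP']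

end gen

variable {a : ℕ} {Z : Matrix (Fin a) (Fin a) ℂ}

/-- The complexified period map. -/
def PC (Z : Matrix (Fin a) (Fin a) ℂ) : (Fin a ⊕ Fin a → ℂ) →ₗ[ℂ] (Fin a → ℂ) where
  toFun v := fun i => v (Sum.inl i) + ∑ k, Z i k * v (Sum.inr k)
  map_add' u v := by
    funext i
    simp only [Pi.add_apply, mul_add, Finset.sum_add_distrib]
    ring
  map_smul' c v := by
    funext i
    simp only [Pi.smul_apply, smul_eq_mul, RingHom.id_apply, mul_add, Finset.mul_sum]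
    congr 1
    refine Finset.sum_congr rfl fun k _ => ?_
    ring

theorem PC_apply (v : Fin a ⊕ Fin a → ℂ) (i : Fin a) :
    PC Z v i = v (Sum.inl i) + ∑ k, Z i k * v (Sum.inr k) := rfl

theorem PC_cv (w : Fin a ⊕ Fin a → ℚ) : PC Z (Pool.Agent.Y90.cv w) = perOne Z w := rfl

theorem PC_vecL (b : Fin a → ℂ) : PC Z (vecL Z b) = 0 := by
  funext i
  rw [PC_apply]
  simp [vecL, mulVec, dotProduct]

theorem PC_surj (h : PM Z) (t : Fin a → ℂ) : ∃ v ∈ eig Z 1, PC Z v = t := by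
  obtain ⟨b, b', hb⟩ := exists_decomp Z (Z.map (starRingEnd ℂ)) (isUnit_bar_sub h.det)
    (Sum.elim t 0)
  refine ⟨vecL (Z.map (starRingEnd ℂ)) b', ?_, ?_⟩
  · rw [mem_eig, one_smul]
    exact DZ_vecL_bar h.det b'
  · have h1 : PC Z (Sum.elim t 0) = t := by
      funext i
      rw [PC_apply]
      simp
    rw [← h1, hb, map_add, PC_vecL, zero_add]

theorem PC_inj (h : PM Z) {v : Fin a ⊕ Fin a → ℂ} (hv : v ∈ eig Z 1) (h0 : PC Z v = 0) :
    v = 0 := by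
  have h1 : v = vecL Z (fun i => v (Sum.inr i)) := by
    funext i
    rcases i with i | i
    · have h3 : v (Sum.inl i) + ∑ k, Z i k * v (Sum.inr k) = 0 := congrFun h0 i
      change v (Sum.inl i) = -(∑ k, Z i k * v (Sum.inr k))
      linear_combination h3
    · rfl
  have h2 := DZ_vecL h.det (fun i => v (Sum.inr i))
  rw [← h1] at h2
  rw [mem_eig, one_smul, h2] at hv
  funext i
  have h3 : -(v i) = v i := congrFun hv i
  rw [Pi.zero_apply]
  linear_combination (-1 / 2 : ℂ) * h3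

theorem qm_cv (φ : Matrix (Fin a ⊕ Fin a) (Fin a ⊕ Fin a) ℚ) (w : Fin a ⊕ Fin a → ℚ) :
    qm φ *ᵥ Pool.Agent.Y90.cv w = Pool.Agent.Y90.cv (φ *ᵥ w) := by
  funext i
  simp [Pool.Agent.Y90.cv, mulVec, dotProduct]

/-- Linear maps that agree on the periods are equal. -/
theorem per_ext (h : PM Z) {T : Type} [AddCommGroup T] [Module ℂ T]
    {F G : (Fin a → ℂ) →ₗ[ℂ] T} (hFG : ∀ y, F (perOne Z y) = G (perOne Z y)) (t : Fin a → ℂ) :
    F t = G t := by
  have h1 : F.comp (PC Z) = G.comp (PC Z) := by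
    refine (Pi.basisFun ℂ (Fin a ⊕ Fin a)).ext fun i => ?_
    rw [Pi.basisFun_apply, LinearMap.comp_apply, LinearMap.comp_apply, ← single_cv, PC_cv, hFG]
  obtain ⟨v, -, rfl⟩ := PC_surj h t
  exact LinearMap.congr_fun h1 v

theorem PC_comm {φ : Matrix (Fin a ⊕ Fin a) (Fin a ⊕ Fin a) ℚ}
    {Ψ : (Fin a → ℂ) →ₗ[ℂ] (Fin a → ℂ)} (hΨ : ∀ y, Ψ (perOne Z y) = perOne Z (φ *ᵥ y))
    (v : Fin a ⊕ Fin a → ℂ) : Ψ (PC Z v) = PC Z (qm φ *ᵥ v) := by
  have h1 : Ψ.comp (PC Z) = (PC Z).comp (mulVecLin (qm φ)) := by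
    refine (Pi.basisFun ℂ (Fin a ⊕ Fin a)).ext fun i => ?_
    rw [Pi.basisFun_apply, LinearMap.comp_apply, LinearMap.comp_apply, mulVecLin_apply,
      ← single_cv, qm_cv, PC_cv, PC_cv, hΨ]
  exact LinearMap.congr_fun h1 v

theorem finrank_map_inj {V W : Type} [AddCommGroup V] [Module ℂ V] [AddCommGroup W] [Module ℂ W]
    {S : Submodule ℂ V} {F : V →ₗ[ℂ] W} (hF : ∀ u ∈ S, F u = 0 → u = 0) :
    finrank ℂ (S.map F) = finrank ℂ S := by
  have h1 := LinearMap.finrank_range_of_inj (f := F.domRestrict S) (by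
    rw [injective_iff_map_eq_zero]
    intro u hu
    exact Subtype.ext (hF u u.2 hu))
  rw [← h1, LinearMap.range_domRestrict]

/-- The multiplicities of the eigenvalues on the tangent space. -/
theorem pd_EG (h : PM Z) {φ : Matrix (Fin a ⊕ Fin a) (Fin a ⊕ Fin a) ℚ}
    {Ψ : (Fin a → ℂ) →ₗ[ℂ] (Fin a → ℂ)} (hΨ : ∀ y, Ψ (perOne Z y) = perOne Z (φ *ᵥ y))
    (hc : qm φ * DZ Z = DZ Z * qm φ) (α : ℂ) :
    pd Z (EG φ α) = finrank ℂ (LinearMap.ker (Ψ - α • LinearMap.id)) := by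
  unfold pd
  rw [← finrank_map_inj (S := EG φ α ⊓ eig Z 1) (F := PC Z) (fun u hu => PC_inj h hu.2)]
  suffices h9 : (EG φ α ⊓ eig Z 1).map (PC Z) = LinearMap.ker (Ψ - α • LinearMap.id) by rw [h9]
  ext t
  rw [LinearMap.mem_ker, LinearMap.sub_apply, LinearMap.smul_apply, LinearMap.id_apply]
  constructor
  · rintro ⟨v, ⟨hv, -⟩, rfl⟩
    rw [SetLike.mem_coe, mem_EG] at hv
    rw [PC_comm hΨ, hv, map_smul, sub_self]
  · intro ht
    obtain ⟨v, hv, rfl⟩ := PC_surj h t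
    refine ⟨v, ⟨?_, hv⟩, rfl⟩
    rw [SetLike.mem_coe, mem_EG, ← sub_eq_zero]
    refine PC_inj h (Submodule.sub_mem _ ?_ (Submodule.smul_mem _ _ hv)) ?_
    · rw [mem_eig, mulVec_mulVec, ← hc, ← mulVec_mulVec, mem_eig.1 hv, mulVec_smul]
    · rw [map_sub, ← PC_comm hΨ, map_smul, ht]

theorem cjS_EG (φ : Matrix (Fin a ⊕ Fin a) (Fin a ⊕ Fin a) ℚ) (α : ℂ) (τ : ℂ ≃+* ℂ) :
    cjS τ (EG φ α) = EG φ (τ α) := by
  ext v
  rw [mem_cjS, mem_EG, mem_EG]
  have hq : (qm φ).map τ = qm φ := cK_aut τ φ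
  have hq' : (qm φ).map τ.symm = qm φ := cK_aut τ.symm φ
  constructor
  · intro h1
    have h2 := map_mulVec_aut τ (qm φ) (fun i => τ.symm (v i))
    rw [h1, hq] at h2
    have h3 : (fun i => τ (τ.symm (v i))) = v := by
      funext i
      simp
    rw [h3] at h2
    rw [← h2]
    funext i
    simp
  · intro h1
    have h2 := map_mulVec_aut τ.symm (qm φ) v
    rw [h1, hq'] at h2
    rw [← h2]
    funext i
    simp

theorem cc_dE (d : ℚ) : cc (dE d) = -dE d := by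
  rw [cc_apply]
  simp [dE]

/-- From imaginary quadratic multiplication of an abelian subvariety to period matrices. -/
theorem jTransQ : JTransQ := by
  intro H T _ _ _ _ per a Z h ι π Ψ₁ Ψ₂ hπι g₁ g₂ p q hr
  obtain ⟨d, φ₀, Ψ, hd, hΨ, hsq, hfull, hp, hq⟩ := hr
  have hinj : Function.Injective ι := fun x y hxy => by
    rw [← hπι x, hxy, hπι]
  let e : (Fin a ⊕ Fin a → ℚ) ≃ₗ[ℚ] LinearMap.range ι := LinearEquiv.ofInjective ι hinj
  have he : ∀ y, (e y : H) = ι y := fun y => rfl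
  obtain ⟨φ, hφ⟩ : ∃ φ : Matrix (Fin a ⊕ Fin a) (Fin a ⊕ Fin a) ℚ,
      ∀ y, φ *ᵥ y = e.symm (φ₀ (e y)) :=
    ⟨LinearMap.toMatrix' (e.symm.toLinearMap ∘ₗ φ₀ ∘ₗ e.toLinearMap), fun y => by
      rw [← Matrix.toLin'_apply, Matrix.toLin'_toMatrix']
      rfl⟩
  have heφ : ∀ y, ι (φ *ᵥ y) = (φ₀ (e y) : H) := by
    intro y
    rw [hφ, ← he, LinearEquiv.apply_symm_apply]
  obtain ⟨Ψ', hΨ'⟩ : ∃ Ψ' : (Fin a → ℂ) →ₗ[ℂ] (Fin a → ℂ), Ψ' = Ψ₂.comp (Ψ.comp Ψ₁) := ⟨_, rfl⟩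
  have h₃ : ∀ y, Ψ (Ψ₁ (perOne Z y)) = per (ι (φ *ᵥ y)) := by
    intro y
    rw [g₁, ← he, hΨ, heφ]
  have h₄ : ∀ y, Ψ' (perOne Z y) = perOne Z (φ *ᵥ y) := by
    intro y
    rw [hΨ', LinearMap.comp_apply, LinearMap.comp_apply, h₃, g₂, hπι]
  have h₅ : ∀ t, Ψ (Ψ₁ t) = Ψ₁ (Ψ' t) := by
    intro t
    refine per_ext h (F := Ψ.comp Ψ₁) (G := Ψ₁.comp Ψ') (fun y => ?_) t
    rw [LinearMap.comp_apply, LinearMap.comp_apply, h₃, h₄, g₁]
  have h₆ : ∀ t, Ψ₂ (Ψ₁ t) = t := by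
    intro t
    refine per_ext h (F := Ψ₂.comp Ψ₁) (G := LinearMap.id) (fun y => ?_) t
    rw [LinearMap.comp_apply, LinearMap.id_apply, g₁, g₂, hπι]
  have hc : qm φ * DZ Z = DZ Z * qm φ := by
    have h1 := comm_of_hom h.cht h.cht h₄
    rw [DJ_JR] at h1
    exact h1
  have hrange : Submodule.span ℂ (per '' (LinearMap.range ι : Set H)) = LinearMap.range Ψ₁ := by
    apply le_antisymm
    · refine Submodule.span_le.2 ?_
      rintro _ ⟨_, ⟨y, rfl⟩, rfl⟩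
      exact ⟨perOne Z y, g₁ y⟩
    · rintro _ ⟨t, rfl⟩
      obtain ⟨v, -, rfl⟩ := PC_surj h t
      have h1 : ∀ v : Fin a ⊕ Fin a → ℂ,
          v = ∑ i, v i • (Pi.single i 1 : Fin a ⊕ Fin a → ℂ) := by
        intro v
        funext j
        simp [Finset.sum_apply, Pi.single_apply]
      rw [h1 v, map_sum, map_sum]
      refine Submodule.sum_mem _ fun i _ => ?_
      rw [map_smul, map_smul, ← single_cv, PC_cv, g₁]
      exact Submodule.smul_mem _ _ (Submodule.subset_span ⟨_, ⟨_, rfl⟩, rfl⟩)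
  have key : ∀ α : ℂ, finrank ℂ (Submodule.span ℂ (per '' (LinearMap.range ι : Set H)) ⊓
      LinearMap.ker (Ψ - α • LinearMap.id) : Submodule ℂ T) = pd Z (EG φ α) := by
    intro α
    rw [pd_EG h h₄ hc, hrange, ← finrank_map_inj (S := LinearMap.ker (Ψ' - α • LinearMap.id))
      (F := Ψ₁) (fun u _ h0 => by rw [← h₆ u, h0, map_zero])]
    suffices h9 : LinearMap.range Ψ₁ ⊓ LinearMap.ker (Ψ - α • LinearMap.id) =
        (LinearMap.ker (Ψ' - α • LinearMap.id)).map Ψ₁ by rw [h9]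
    ext t
    constructor
    · rintro ⟨⟨u, rfl⟩, hu⟩
      rw [SetLike.mem_coe, LinearMap.mem_ker, LinearMap.sub_apply, LinearMap.smul_apply,
        LinearMap.id_apply, h₅, ← map_smul, ← map_sub] at hu
      refine ⟨u, ?_, rfl⟩
      rw [SetLike.mem_coe, LinearMap.mem_ker, LinearMap.sub_apply, LinearMap.smul_apply,
        LinearMap.id_apply, ← h₆ (Ψ' u - α • u), hu, map_zero]
    · rintro ⟨u, hu, rfl⟩
      rw [SetLike.mem_coe, LinearMap.mem_ker, LinearMap.sub_apply, LinearMap.smul_apply,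
        LinearMap.id_apply] at hu
      refine ⟨⟨u, rfl⟩, ?_⟩
      rw [SetLike.mem_coe, LinearMap.mem_ker, LinearMap.sub_apply, LinearMap.smul_apply,
        LinearMap.id_apply, h₅, ← map_smul, ← map_sub, hu, map_zero]
  refine ⟨d, φ, ⟨hd, ?_, hc, fun b hb => ?_⟩, Or.inl ⟨?_, ?_⟩⟩
  · apply Matrix.toLin'.injective
    refine LinearMap.ext fun y => ?_
    rw [Matrix.toLin'_apply, Matrix.toLin'_apply, ← mulVec_mulVec, hφ, hφ,
      LinearEquiv.apply_symm_apply, hsq, neg_mulVec, smul_mulVec, one_mulVec, map_neg, map_smul,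
      LinearEquiv.symm_apply_apply]
  · obtain ⟨Ψ₃, h₇⟩ := h.cht.hom h.cht (R := b) (by rw [DJ_JR]; exact hb)
    have hend : IsEndo per (LinearMap.range ι)
        (e.toLinearMap ∘ₗ Matrix.toLin' b ∘ₗ e.symm.toLinearMap) := by
      refine ⟨Ψ₁.comp (Ψ₃.comp Ψ₂), fun u => ?_⟩
      obtain ⟨y, rfl⟩ := e.surjective u
      rw [LinearMap.comp_apply, LinearMap.comp_apply, he, g₂, hπι, h₇, g₁, ← he]
      have h8 : (e.toLinearMap ∘ₗ Matrix.toLin' b ∘ₗ e.symm.toLinearMap) (e y) = e (b *ᵥ y) := by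
        change e (b *ᵥ (e.symm (e y))) = _
        rw [LinearEquiv.symm_apply_apply]
      rw [h8]
    obtain ⟨x, z, hxz⟩ := hfull _ hend
    refine ⟨x, z, ?_⟩
    apply Matrix.toLin'.injective
    refine LinearMap.ext fun y => ?_
    have h8 := hxz (e y)
    have h9 := congrArg e.symm h8
    rw [LinearMap.comp_apply, LinearMap.comp_apply, LinearEquiv.coe_coe, LinearEquiv.coe_coe,
      LinearEquiv.symm_apply_apply, LinearEquiv.symm_apply_apply, map_add, map_smul, map_smul,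
      LinearEquiv.symm_apply_apply, ← hφ] at h9
    rw [h9, Matrix.toLin'_apply, add_mulVec, smul_mulVec, smul_mulVec, one_mulVec]
  · rw [← key]
    exact hp
  · rw [← pd_cc, cjS_EG, cc_dE, ← key, neg_smul, sub_neg_eq_add]
    exact hq

end

end Pool.Agent.Y941.S4
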